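import Pool.Agent.U728.Lie.Stm

set_option autoImplicit false

/-! The elementary theory of an algebraically closed field of characteristic zero is decidable. -/

namespace Pool.Agent.U728.Lie

open MvPolynomial Pool.Agent.Helper967.AD Pool.Agent.Helper967.FL

universe u v

theorem t_DEC : S_DEC.{u} := by
  intro F _ _ _
  classical
  let D : ℕ → List (ℕ × List ℕ) := fun k => (Encodable.decode k).getD []
  let z : CF := (0, ([], (0, [])), ([], []))
  let D' : ℕ → CF := fun k => (Encodable.decode k).getD z
  have hD : Primrec D := Primrec.option_getD.comp Primrec.decode (Primrec.const _)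
  have hD' : Primrec D' := Primrec.option_getD.comp Primrec.decode (Primrec.const _)
  have hex : ∀ n : ℕ, ∃ k : ℕ, chkT n (D k) ∨ chkF n (D' k) := by
    intro n
    rcases complete n with ⟨K, hK⟩ | ⟨K, hK⟩
    · refine ⟨Encodable.encode K, Or.inl ?_⟩
      simp only [D, Encodable.encodek, Option.getD_some]
      exact hK
    · refine ⟨Encodable.encode K, Or.inr ?_⟩
      simp only [D', Encodable.encodek, Option.getD_some]
      exact hK
  have hT : PrimrecPred fun q : ℕ × ℕ => chkT q.1 (D q.2) :=
    chkT_primrec.comp Primrec.fst (hD.comp Primrec.snd)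
  have hF : PrimrecPred fun q : ℕ × ℕ => chkF q.1 (D' q.2) :=
    chkF_primrec.comp Primrec.fst (hD'.comp Primrec.snd)
  have hfind : Computable fun n => Nat.find (hex n) :=
    Computable.find (P := fun n k => chkT n (D k) ∨ chkF n (D' k))
      (hT.or hF).computablePred hex
  refine ⟨fun n => decide (chkT n (D (Nat.find (hex n)))), ?_, ?_⟩
  · exact hT.computablePred.decide.comp (Computable.pair Computable.id hfind)
  · intro n
    rw [decide_eq_true_iff]
    constructor
    · intro h e
      exact soundT h e
    · intro h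
      rcases Nat.find_spec (hex n) with h1 | h1
      · exact h1
      · exfalso
        obtain ⟨e, he⟩ := soundF (F := F) h1
        have h2 := h e
        unfold H at h2
        rw [he] at h2
        exact Bool.noConfusion h2

section sem

variable {F : Type u} [Field F] [CharZero F]

theorem H_neg (e : ℕ → F) (s : ℕ) : H e (negC s) ↔ ¬ H e s := by
  unfold H negC
  rw [bevG_not]
  simp

theorem H_and (e : ℕ → F) (s t : ℕ) : H e (andC s t) ↔ H e s ∧ H e t := by
  unfold H andC
  rw [bevG_and]
  simp

theorem H_or (e : ℕ → F) (s t : ℕ) : H e (orC s t) ↔ H e s ∨ H e t := by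
  unfold H orC
  have h0 := bevG_or (α := ℕ → F) TF e 0 s t
  rw [zero_add] at h0
  rw [h0]
  simp

theorem H_imp (e : ℕ → F) (s t : ℕ) : H e (impC s t) ↔ (H e s → H e t) := by
  unfold impC
  rw [H_or, H_neg]
  tauto

theorem fterm_congr {e e' : ℕ → F} (t : FTerm) (h : ∀ i ∈ fvars t, e i = e' i) :
    t.val e = t.val e' := by
  induction t with
  | var i => exact h i rfl
  | zero => rfl
  | one => rfl
  | add s t hs ht =>
    show s.val e + t.val e = s.val e' + t.val e'
    rw [hs fun i hi => h i (Or.inl hi), ht fun i hi => h i (Or.inr hi)]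
  | mul s t hs ht =>
    show s.val e * t.val e = s.val e' * t.val e'
    rw [hs fun i hi => h i (Or.inl hi), ht fun i hi => h i (Or.inr hi)]

/-- Truth depends only on the values of the free variables. -/
theorem holds_congr (φ : FFull) : ∀ e e' : ℕ → F, (∀ i ∈ φ.free, e i = e' i) →
    (φ.Holds e ↔ φ.Holds e') := by
  induction φ with
  | eq s t =>
    intro e e' h
    show s.val e = t.val e ↔ s.val e' = t.val e'
    rw [fterm_congr s fun i hi => h i (Or.inl hi), fterm_congr t fun i hi => h i (Or.inr hi)]
  | not p hp =>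
    intro e e' h
    exact not_congr (hp e e' h)
  | and p q hp hq =>
    intro e e' h
    exact and_congr (hp e e' fun i hi => h i (Or.inl hi)) (hq e e' fun i hi => h i (Or.inr hi))
  | or p q hp hq =>
    intro e e' h
    exact or_congr (hp e e' fun i hi => h i (Or.inl hi)) (hq e e' fun i hi => h i (Or.inr hi))
  | all k p hp =>
    intro e e' h
    refine forall_congr' fun x => hp _ _ fun i hi => ?_
    by_cases hik : i = k
    · subst hik
      simp
    · rw [Function.update_of_ne hik, Function.update_of_ne hik]
      exact h i ⟨hi, hik⟩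

end sem

/-- strong recursion with a computable step is computable -/
theorem sr_computable {α σ : Type*} [Primcodable α] [Primcodable σ] {g : α → List σ → σ}
    (hg : Computable₂ g) : Computable₂ (sr g) := by
  have h : Computable fun p : α × ℕ =>
      (Nat.rec (motive := fun _ => List σ) [] (fun _ l => l ++ [g p.1 l]) p.2 : List σ) :=
    Computable.nat_rec (f := fun p : α × ℕ => p.2) (g := fun _ : α × ℕ => ([] : List σ))
      (h := fun p q => q.2 ++ [g p.1 q.2]) Computable.snd (Computable.const _)
      (Computable.list_concat.comp (Computable.snd.comp Computable.snd)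
        (hg.comp (Computable.fst.comp Computable.fst) (Computable.snd.comp Computable.snd)))
  have h' : Computable₂ (srl g) := by
    refine Computable.of_eq h fun p => ?_
    obtain ⟨a, n⟩ := p
    show (Nat.rec (motive := fun _ => List σ) [] (fun _ l => l ++ [g a l]) n : List σ) = srl g a n
    induction n with
    | zero => rfl
    | succ n ih => simp only [srl, ih]
  exact hg.comp Computable.fst h'

section tr

variable (el : ℕ × ℕ → ℕ)

/-- the part of the step without quantifiers -/
def primS (l : List ℕ) : ℕ :=
  if l.length.unpair.1 = 0 then l.length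
  else if l.length.unpair.1 = 1 then Nat.pair 1 (l.getD l.length.unpair.2 0)
  else if l.length.unpair.1 = 2 then
    Nat.pair 2 (Nat.pair (l.getD l.length.unpair.2.unpair.1 0) (l.getD l.length.unpair.2.unpair.2 0))
  else
    Nat.pair 3 (Nat.pair (l.getD l.length.unpair.2.unpair.1 0) (l.getD l.length.unpair.2.unpair.2 0))

/-- one step of the elimination of the quantifiers -/
def stepR (_ : Unit) (l : List ℕ) : ℕ :=
  bif decide (l.length.unpair.1 = 4) then
    el (l.length.unpair.2.unpair.1, l.getD l.length.unpair.2.unpair.2 0)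
  else primS l

/-- elimination of the quantifiers; `el (k, θ)` is a quantifier-free form of `∀ x_k, θ` -/
def tr (n : ℕ) : ℕ := sr (stepR el) () n

theorem primS_primrec : Primrec primS := by
  have hL : Primrec fun p : List ℕ => p.length.unpair := Primrec.unpair.comp Primrec.list_length
  have h1 : Primrec fun p : List ℕ => p.length.unpair.1 := Primrec.fst.comp hL
  have hR : Primrec fun p : List ℕ => p.length.unpair.2 := Primrec.snd.comp hL
  have hU : Primrec fun p : List ℕ => p.length.unpair.2.unpair := Primrec.unpair.comp hR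
  have hR' : Primrec fun p : List ℕ => p.getD p.length.unpair.2 0 :=
    (Primrec.list_getD 0).comp Primrec.id hR
  have hA : Primrec fun p : List ℕ => p.getD p.length.unpair.2.unpair.1 0 :=
    (Primrec.list_getD 0).comp Primrec.id (Primrec.fst.comp hU)
  have hB : Primrec fun p : List ℕ => p.getD p.length.unpair.2.unpair.2 0 :=
    (Primrec.list_getD 0).comp Primrec.id (Primrec.snd.comp hU)
  have e : ∀ k : ℕ, PrimrecPred fun p : List ℕ => p.length.unpair.1 = k := fun k =>
    Primrec.eq.comp h1 (Primrec.const k)
  refine Primrec.ite (e 0) Primrec.list_length ?_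
  refine Primrec.ite (e 1) (Primrec₂.natPair.comp (Primrec.const 1) hR') ?_
  refine Primrec.ite (e 2)
    (Primrec₂.natPair.comp (Primrec.const 2) (Primrec₂.natPair.comp hA hB)) ?_
  exact Primrec₂.natPair.comp (Primrec.const 3) (Primrec₂.natPair.comp hA hB)

theorem tr_computable (hel : Computable el) : Computable (tr el) := by
  have hL : Primrec fun p : Unit × List ℕ => p.2.length.unpair :=
    Primrec.unpair.comp (Primrec.list_length.comp Primrec.snd)
  have h1 : Primrec fun p : Unit × List ℕ => p.2.length.unpair.1 := Primrec.fst.comp hL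
  have hR : Primrec fun p : Unit × List ℕ => p.2.length.unpair.2 := Primrec.snd.comp hL
  have hU : Primrec fun p : Unit × List ℕ => p.2.length.unpair.2.unpair := Primrec.unpair.comp hR
  have hB : Primrec fun p : Unit × List ℕ => p.2.getD p.2.length.unpair.2.unpair.2 0 :=
    (Primrec.list_getD 0).comp Primrec.snd (Primrec.snd.comp hU)
  have e : PrimrecPred fun p : Unit × List ℕ => p.2.length.unpair.1 = 4 :=
    Primrec.eq.comp h1 (Primrec.const 4)
  have hs : Computable₂ (stepR el) :=
    Computable.cond e.computablePred.decide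
      (hel.comp (Computable.pair (Primrec.fst.comp hU).to_comp hB.to_comp))
      (primS_primrec.to_comp.comp Computable.snd)
  exact (sr_computable hs).comp (Computable.const ()) Computable.id

theorem tr_atom (x : ℕ) : tr el (Nat.pair 0 x) = Nat.pair 0 x := by
  simp [tr, sr, stepR, primS, srl_length]

theorem tr_not (s : ℕ) : tr el (Nat.pair 1 s) = negC (tr el s) := by
  rw [tr, sr, stepR, primS]
  simp only [srl_length, Nat.unpair_pair]
  rw [srl_getD _ _ _ _ _ (lt_pair (by norm_num))]
  simp [tr, negC]

theorem tr_and (s t : ℕ) : tr el (Nat.pair 2 (Nat.pair s t)) = andC (tr el s) (tr el t) := by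
  rw [tr, sr, stepR, primS]
  simp only [srl_length, Nat.unpair_pair]
  rw [srl_getD _ _ _ _ _ (lt_pair_left (by norm_num)),
    srl_getD _ _ _ _ _ (lt_pair_right (by norm_num))]
  simp [tr, andC]

theorem tr_or (s t : ℕ) : tr el (Nat.pair 3 (Nat.pair s t)) = orC (tr el s) (tr el t) := by
  rw [tr, sr, stepR, primS]
  simp only [srl_length, Nat.unpair_pair]
  rw [srl_getD _ _ _ _ _ (lt_pair_left (by norm_num)),
    srl_getD _ _ _ _ _ (lt_pair_right (by norm_num))]
  simp [tr, orC]

theorem tr_all (k s : ℕ) : tr el (Nat.pair 4 (Nat.pair k s)) = el (k, tr el s) := by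
  rw [tr, sr, stepR]
  simp only [srl_length, Nat.unpair_pair]
  rw [srl_getD _ _ _ _ _ (lt_pair_right (by norm_num))]
  simp [tr]

theorem tr_sem {F : Type u} [Field F] [CharZero F]
    (hel : ∀ (k θ : ℕ) (e : ℕ → F), H e (el (k, θ)) ↔ ∀ x, H (Function.update e k x) θ)
    (φ : FFull) : ∀ e : ℕ → F, H e (tr el φ.code) ↔ φ.Holds e := by
  induction φ with
  | eq s t =>
    intro e
    rw [FFull.code, tr_atom]
    exact holds_iff e (FForm.eq s t)
  | not p hp =>
    intro e
    rw [FFull.code, tr_not, H_neg, hp e]
    rfl
  | and p q hp hq =>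
    intro e
    rw [FFull.code, tr_and, H_and, hp e, hq e]
    rfl
  | or p q hp hq =>
    intro e
    rw [FFull.code, tr_or, H_or, hp e, hq e]
    rfl
  | all k p hp =>
    intro e
    rw [FFull.code, tr_all, hel]
    exact forall_congr' fun x => hp _

end tr

/-- Decidability of `Th(F)`. -/
theorem field_theory (hSUB : S_SUB.{u}) (hSOUND : S_SOUND.{u}) (hCOMP : S_COMP.{u}) (hQE : S_QE.{u})
    (hRE : S_RE.{u}) (F : Type u) [Field F] [CharZero F] [IsAlgClosed F] :
    FieldTheoryDecidable F := by
  classical
  obtain ⟨D, hDc, hD⟩ := t_DEC F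
  obtain ⟨chk, hchkc, hchk⟩ := hRE F
  obtain ⟨hsT, hsF, hsub⟩ := hSUB
  have hz : ∀ e : ℕ → F, aeval e (pol zeroC) = 0 := fun e => by rw [pol_zeroC, map_zero]
  -- the formula with the variable `k` set to zero
  have hz0 : ∀ (e : ℕ → F) (k n : ℕ), H e (subF (k, zeroC) n) ↔ H (Function.update e k 0) n := by
    intro e k n
    have h := (hsub F e k zeroC n).2
    rwa [hz] at h
  let P : ℕ × ℕ → ℕ → Prop := fun q n =>
    D (impC (subF (q.1, zeroC) n.unpair.1) q.2) = true ∧
      chk n.unpair.2 (negC (subF (q.1, zeroC) n.unpair.1), q.1, negC q.2) = true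
  have hPc : ComputablePred fun p : (ℕ × ℕ) × ℕ => P p.1 p.2 := by
    have h1 : Computable fun p : (ℕ × ℕ) × ℕ => p.1.1 := Computable.fst.comp Computable.fst
    have h2 : Computable fun p : (ℕ × ℕ) × ℕ => p.1.2 := Computable.snd.comp Computable.fst
    have hu : Computable fun p : (ℕ × ℕ) × ℕ => p.2.unpair := Computable.unpair.comp Computable.snd
    have hs : Computable fun p : (ℕ × ℕ) × ℕ => subF (p.1.1, zeroC) p.2.unpair.1 :=
      hsF.to_comp.comp (Computable.pair h1 (Computable.const _)) (Computable.fst.comp hu)
    have hneg : Computable negC := (Primrec₂.natPair.comp (Primrec.const 1) Primrec.id).to_comp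
    have himp : Computable₂ impC :=
      (Primrec₂.natPair.comp (Primrec.const 3) (Primrec₂.natPair.comp
        (Primrec₂.natPair.comp (Primrec.const 1) Primrec.fst) Primrec.snd)).to_comp
    have hA : Computable fun p : (ℕ × ℕ) × ℕ =>
        D (impC (subF (p.1.1, zeroC) p.2.unpair.1) p.1.2) := hDc.comp (himp.comp hs h2)
    have hB : Computable fun p : (ℕ × ℕ) × ℕ =>
        chk p.2.unpair.2 (negC (subF (p.1.1, zeroC) p.2.unpair.1), p.1.1, negC p.1.2) :=
      hchkc.comp (Computable.snd.comp hu)
        (Computable.pair (hneg.comp hs) (Computable.pair h1 (hneg.comp h2)))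
    have hAB : Computable fun p : (ℕ × ℕ) × ℕ =>
        (D (impC (subF (p.1.1, zeroC) p.2.unpair.1) p.1.2) &&
          chk p.2.unpair.2 (negC (subF (p.1.1, zeroC) p.2.unpair.1), p.1.1, negC p.1.2)) :=
      Primrec.and.to_comp.comp hA hB
    refine Computable.computablePred (hAB.of_eq fun p => ?_)
    rw [Bool.eq_iff_iff]
    simp [P]
  have hPex : ∀ q, ∃ n, P q n := by
    rintro ⟨k, θ⟩
    obtain ⟨n₀, hn₀⟩ := hQE F (fun e => H e (negC θ)) k ⟨negC θ, fun e => Iff.rfl⟩
    have hn : ∀ e : ℕ → F, H e (subF (k, zeroC) (negC n₀)) ↔ ∀ x, H (Function.update e k x) θ := by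
      intro e
      rw [hz0, H_neg, hn₀]
      simp only [Function.update_idem, H_neg, not_exists, not_not]
    have hW : W F (negC (subF (k, zeroC) (negC n₀))) k (negC θ) := by
      refine hCOMP F _ _ _ fun e he => ?_
      rw [H_neg, hn] at he
      push Not at he
      obtain ⟨x, hx⟩ := he
      exact ⟨x, (H_neg _ _).2 hx⟩
    obtain ⟨d, hd⟩ := (hchk _ _ _).1 hW
    refine ⟨Nat.pair (negC n₀) d, ?_, ?_⟩
    · simp only [Nat.unpair_pair]
      rw [hD]
      intro e
      rw [H_imp, hn]
      intro h
      have h1 := h (e k)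
      rwa [Function.update_eq_self] at h1
    · simp only [Nat.unpair_pair]
      exact hd
  let el : ℕ × ℕ → ℕ := fun q => subF (q.1, zeroC) (Nat.find (hPex q)).unpair.1
  have helc : Computable el :=
    hsF.to_comp.comp (Computable.pair Computable.fst (Computable.const _))
      (Computable.fst.comp (Computable.unpair.comp (Computable.find hPc hPex)))
  have hel : ∀ (k θ : ℕ) (e : ℕ → F), H e (el (k, θ)) ↔ ∀ x, H (Function.update e k x) θ := by
    intro k θ e
    obtain ⟨h1, h2⟩ := Nat.find_spec (hPex (k, θ))
    rw [hD] at h1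
    have hW := (hchk _ _ _).2 ⟨_, h2⟩
    constructor
    · intro h x
      have h3 := (H_imp _ _ _).1 (h1 (Function.update e k x))
      refine h3 ?_
      rw [hz0, Function.update_idem, ← hz0]
      exact h
    · intro h
      by_contra hc
      obtain ⟨x, hx⟩ := hSOUND F _ _ _ hW e ((H_neg _ _).2 hc)
      exact (H_neg _ _).1 hx (h x)
  refine ⟨fun n => D (tr el n), hDc.comp (tr_computable el helc), fun φ hφ => ?_⟩
  rw [hD]
  constructor
  · intro h
    exact (tr_sem el hel φ _).1 (h _)
  · intro h e
    refine (tr_sem el hel φ e).2 ((holds_congr φ _ _ fun i hi => ?_).1 h)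
    rw [hφ] at hi
    exact absurd hi (Set.notMem_empty i)

end Pool.Agent.U728.Lie
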