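import Pool.Agent.U728.Lie.Asm
import Pool.Agent.Helper967.FL10

set_option autoImplicit false

/-! The two theories, from the packages. -/

namespace Pool.Agent.U728.Lie

open Pool.Agent.Helper967.FL

universe u v

theorem lie_theory (hLIE : S_LIE.{u, max u v}) (F : Type u) [Field F] [CharZero F] (X : Type v)
    [Nontrivial X] : ¬ LieTheoryDecidable F (FreeLieAlgebra F X) :=
  fun h => lie_undecidable F X (hLIE F _ h)

theorem all (hSUB : S_SUB.{u}) (hSOUND : S_SOUND.{u}) (hCOMP : S_COMP.{u}) (hQE : S_QE.{u})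
    (hRE : S_RE.{u}) (hLIE : S_LIE.{u, max u v}) :
    (∀ (F : Type u) [Field F] [CharZero F] [IsAlgClosed F] (X : Type v) [Nontrivial X],
      FieldTheoryDecidable F ∧ ¬ LieTheoryDecidable F (FreeLieAlgebra F X)) ∧
    ∀ (F : Type u) [Field F] [CharZero F] (X : Type v) [Nontrivial X],
      ¬ LieTheoryDecidable F (FreeLieAlgebra F X) :=
  ⟨fun F _ _ _ X _ => ⟨field_theory hSUB hSOUND hCOMP hQE hRE F, lie_theory hLIE F X⟩,
    fun F _ _ X _ => lie_theory hLIE F X⟩

end Pool.Agent.U728.Lie
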