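import Pool.Agent.Helper967.AD6

set_option autoImplicit false

/-!
# Project LA: the full theory of an algebraically closed field of characteristic zero is decidable

Goal: MP_5be460_lc, Question 1 is disproved: `Th(F)` is decidable and `Th(L_F(X))` is undecidable for every
algebraically closed field `F` of characteristic zero and every `X` with at least two elements (the starting
library has: the universal theory of `L_F(X)` is undecidable; the universal theory of `F` is decidable).

All natural numbers are codes of quantifier-free formulas (library `Pool.Agent.Helper967.AD`): `bevG TF e n`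
is the truth value at `e : ℕ → F` of the formula with code `n`, `pol n : MvPolynomial ℕ ℚ` is the
polynomial with code `n` (`pol_surj`: all polynomials are obtained), the atom with code `c` says
`aeval e (P c) = 0` with `P c = pol c.unpair.1 - pol c.unpair.2`.
-/

namespace Pool.Agent.U728.Lie

open MvPolynomial Pool.Agent.Helper967.AD Pool.Agent.Helper967.FL

universe u v

/-- truth at `e` of the quantifier-free formula with code `n` -/
def H {F : Type u} [Field F] [CharZero F] (e : ℕ → F) (n : ℕ) : Prop := bevG TF e n = true

/-- the quantifier-free formula with code `n` is true at all points -/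
def U (F : Type u) [Field F] [CharZero F] (n : ℕ) : Prop := ∀ e : ℕ → F, H e n

/-- the set `A` of assignments is given by a quantifier-free formula -/
def Dfn {F : Type u} [Field F] [CharZero F] (A : (ℕ → F) → Prop) : Prop :=
  ∃ n : ℕ, ∀ e : ℕ → F, H e n ↔ A e

/-- substitution of the term with code `a.2` for the variable `a.1` in the term with code `n` -/
def subT (a : ℕ × ℕ) (n : ℕ) : ℕ :=
  rec5 (fun (a : ℕ × ℕ) i => if i = a.1 then a.2 else varC i) zeroC oneC addC mulC cstC a n

/-- one step of the substitution in formulas -/
def stepS (a : ℕ × ℕ) (l : List ℕ) : ℕ :=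
  if l.length.unpair.1 = 0 then
    Nat.pair 0 (Nat.pair (subT a l.length.unpair.2.unpair.1) (subT a l.length.unpair.2.unpair.2))
  else if l.length.unpair.1 = 1 then Nat.pair 1 (l.getD l.length.unpair.2 0)
  else if l.length.unpair.1 = 2 then
    Nat.pair 2 (Nat.pair (l.getD l.length.unpair.2.unpair.1 0) (l.getD l.length.unpair.2.unpair.2 0))
  else
    Nat.pair 3 (Nat.pair (l.getD l.length.unpair.2.unpair.1 0) (l.getD l.length.unpair.2.unpair.2 0))

/-- substitution of the term with code `a.2` for the variable `a.1` in the formula with code `n` -/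
def subF (a : ℕ × ℕ) (n : ℕ) : ℕ := sr stepS a n

/-- code of the negation -/
def negC (s : ℕ) : ℕ := Nat.pair 1 s
/-- code of the conjunction -/
def andC (s t : ℕ) : ℕ := Nat.pair 2 (Nat.pair s t)
/-- code of the disjunction -/
def orC (s t : ℕ) : ℕ := Nat.pair 3 (Nat.pair s t)
/-- code of the implication -/
def impC (s t : ℕ) : ℕ := orC (negC s) t
/-- code of the equation between two terms -/
def eqC (s t : ℕ) : ℕ := Nat.pair 0 (Nat.pair s t)

/-- Certificates for `∀ e, σ(e) → ∃ x, θ(e[k := x])`. -/
inductive W (F : Type u) [Field F] [CharZero F] : ℕ → ℕ → ℕ → Prop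
  | wit (σ k θ t : ℕ) (h : U F (impC σ (subF (k, t) θ))) : W F σ k θ
  | cases (σ σ₁ σ₂ k θ : ℕ) (h : U F (impC σ (orC σ₁ σ₂))) (h₁ : W F σ₁ k θ) (h₂ : W F σ₂ k θ) :
      W F σ k θ
  | root (σ k θ p m a b : ℕ) (hσ : σ < m) (hθ : θ < m) (hp : p < m) (hk : k < m)
      (h : U F (impC σ (negC (eqC (subT (k, a) p) (subT (k, b) p)))))
      (h' : W F (andC σ (eqC (subT (k, varC m) p) zeroC)) k θ) : W F σ k θ

/-- **Package SUB** (20 minutes). Substitution is primitive recursive and has the right meaning.
Proof. `subT`: `rec5_primrec` (with `varC_primrec`, `addC_primrec`, `mulC_primrec`, `cstC_primrec`,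
`Primrec.ite`); meaning by induction `ind5` on `n` with `rec5_var, rec5_zero, rec5_one, rec5_add, rec5_mul,
rec5_cst` and `pol_var, ...` (`pol_varC`, ...). `subF`: `sr_primrec` and the proof of `bevG_primrec` in
`Helper967/AD3.lean` line by line; its equations as `bevG_atom, bevG_not, bevG_and, bevG_or` there
(`srl_length`, `srl_getD`, `lt_pair`...); meaning by induction `indB`, atoms by `TF_iff` and `P`. -/
def S_SUB : Prop :=
  Primrec₂ subT ∧ Primrec₂ subF ∧
    ∀ (F : Type u) [Field F] [CharZero F] (e : ℕ → F) (k t n : ℕ),
      aeval e (pol (subT (k, t) n)) = aeval (Function.update e k (aeval e (pol t))) (pol n) ∧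
      (H e (subF (k, t) n) ↔ H (Function.update e k (aeval e (pol t))) n)

/-- **Package SOUND** (20 minutes; you may assume `S_SUB` as a hypothesis).
Proof. Induction on `W`. `wit`: `σ(e)` gives `θ(e[k := t(e)])`. `cases`: clear (`bevG_not`, `bevG_or` with
`k = 0`). `root`: let `σ(e)` hold. The map `x ↦ p(e[k := x])` is a polynomial function: it is
`Polynomial.eval x q` with `q = aeval (fun i => if i = k then Polynomial.X else Polynomial.C (e i)) (pol p)`.
By the hypothesis `U` (and the meaning of `subT`) it takes two different values, so `q` is not constant, and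
there is `α` with `q(α) = 0` (`IsAlgClosed.exists_root`). Put `e' = e[m := α]`. Variables with index `≥ m` do
not occur in formulas with code `< m`: `H e' n ↔ H e n` for `n < m` (by `bevG_congr`, `P_vars`, and
`MvPolynomial.eval₂Hom_congr'`/ `aeval` depends only on `vars`), the same for `pol p` (`pol_vars`). So `e'`
satisfies the premise of the induction hypothesis, and the witness `x` for `e'` is a witness for `e`. -/
def S_SOUND : Prop :=
  ∀ (F : Type u) [Field F] [CharZero F] [IsAlgClosed F] (σ k θ : ℕ), W F σ k θ →
    ∀ e : ℕ → F, H e σ → ∃ x, H (Function.update e k x) θ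

/-- **Package COMP** (50 minutes; you may assume `S_SUB` as a hypothesis). Completeness of the certificates.
Proof. For `r : MvPolynomial ℕ ℚ` and `e` let
`uni e r : Polynomial F := aeval (fun i => if i = k then Polynomial.X else Polynomial.C (e i)) r`, so that
`eval x (uni e r) = aeval (Function.update e k x) r` and `natDegree (uni e r) ≤ totalDegree r`.
(0) Derived rule: for a finite list `L` of codes, if `U (σ → ⋁ L)` and `W (σ ∧ τ) k θ` for all `τ ∈ L`, then
`W σ k θ` (induction with `cases`; more generally `W σ` follows from `W (σ ∧ τ)` and `W (σ ∧ ¬τ)`, and from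
`W σ'` if `U (σ → σ')`).
(1) Claim(d): if for all `e` with `σ(e)`: `uni e r ≠ 0`, `natDegree (uni e r) ≤ d`, and there is `x` with
`eval x (uni e r) = 0` and `θ(e[k := x])`, then `W σ k θ`. Induction on `d` (for all `σ`, `r`). `d = 0`: no
`e` satisfies `σ`, use `wit`. `d + 1`: for `e` with `σ(e)` the polynomial `uni e r` is not constant (it is
nonzero and has a root), so it takes two different values at two of the points `0, …, d+1`. By (0) we may
assume that `σ` implies `p(e[k:=i]) ≠ p(e[k:=j])` for fixed `i, j` (`p` a code of `r` by `pol_surj`, terms for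
numbers: `pol_cstC`, `rat_surj`). Choose `m > σ, θ, p, k` and use `root`: it remains to treat
`σ₁ = σ ∧ p[k := x_m] = 0`. Split by `τ = θ[k := x_m]`: for `σ₁ ∧ τ` use `wit` with the term `x_m`. For
`σ₁ ∧ ¬τ` use the induction hypothesis with the divided difference `s`:
`r - (r with X_k replaced by X_m) = (X_k - X_m) * s` (exists by `MvPolynomial.induction_on`), so at such `e`:
`uni e r = (X - C (e m)) * uni e s` (as `m ≠ k`), hence `uni e s ≠ 0` has degree `≤ d`, and the witness `x`
is not `e m` as `θ(e[k:=e m])` fails, so it is a root of `uni e s`.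
(2) Claim(L): let `D` be a bound of all degrees. If for all `e` with `σ(e)`: `uni e r ≠ 0`,
`natDegree (uni e r) ≤ D`, there is `x` with `θ(e[k:=x])`, and each `c ≤ θ` not in the list `L` has
`uni e (P c) = 0` or `uni e (P c) ∣ uni e r`, then `W σ k θ`. Induction on `L`: for `c :: L` split by the formula
`P c (e[k:=j]) ≠ 0` for some `j ≤ degree` (i.e. `uni e (P c) ≠ 0`); in the first case continue with
`r * P c` (so `D` has to grow: let `D` be arbitrary in the claim), in the second with `r`. `L = []`: split by
`⋁_{j ≤ D} θ[k := j]`: if it is true use `wit`s. If it is false at `e` then every `x` with `θ(e[k:=x])` is a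
root of `uni e r`: otherwise no nonzero `uni e (P c)`, `c ≤ θ`, vanishes at `x`, and there is `j ≤ D` with
`eval j (uni e r) ≠ 0`, and `TF` at `e[k:=x]` and `e[k:=j]` agree for all `c ≤ θ` (`bevG_congr`), so `θ(e[k:=j])`.
Now use Claim(D). (3) The theorem is Claim(L) with `r = 1` and `L` = all `c ≤ θ`. -/
def S_COMP : Prop :=
  ∀ (F : Type u) [Field F] [CharZero F] [IsAlgClosed F] (σ k θ : ℕ),
    (∀ e : ℕ → F, H e σ → ∃ x, H (Function.update e k x) θ) → W F σ k θ

/-- **Package QE** (50 minutes; Mathlib and the codes only). Quantifier elimination, semantically.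
Proof. `Dfn` is closed under `¬`, `∧`, `∨` and finite disjunctions, and contains `aeval e r = 0` for every
`r : MvPolynomial ℕ ℚ` (`pol_surj`). With `R = MvPolynomial ℕ ℚ`, a polynomial `p : Polynomial R` and `e`, let
`p_e : Polynomial F` be `p.map (aeval e)`. (a) `A = {e | H e n}` for a code `n`; the set
`{(e, x) | H (update e k x) n}` is a finite union of sets `{(e,x) | p_e(x) = 0 for p ∈ ps, q_e(x) ≠ 0}` with finite
lists `ps` and `q` in `R[X]` (every `r ∈ R` is in `R[X]` with `X_k ↦ X`, the other variables constants; the
family of finite unions of such sets is closed under `∧`, `∨` and complement; induction `indB`). (b) So it is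
enough that `{e | ∃ x, (∀ p ∈ ps, p_e(x) = 0) ∧ q_e(x) ≠ 0}` is `Dfn`. Strong induction on
`∑_{p ∈ ps} (natDegree p + 1)`: zero polynomials in `ps` are dropped. `ps = []`: some coefficient of `q` is nonzero at
`e` (`F` is infinite). If `p ∈ ps` has leading coefficient `c`: where `c(e) = 0` replace `p` by `p.eraseLead`. Where
`c(e) ≠ 0` and there is another `p' ∈ ps` (take `deg p ≤ deg p'`): replace `p'` by
`C c * p' - C (lc p') * X^(deg p' - deg p) * p`, of smaller degree. Where `c(e) ≠ 0` and `ps = [p]`: the condition is
`¬ p_e ∣ q_e ^ natDegree p` (`F` algebraically closed: if all roots of `p_e` are roots of `q_e` then `p_e`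
divides `q_e ^ deg`), and for `g : R[X]` the set `{e | c(e) ≠ 0 ∧ p_e ∣ g_e}` is `Dfn` by induction on
`natDegree g`: for `deg g < deg p` it is `g_e = 0`, else replace `g` by
`C c * g - C (lc g) * X^(deg g - deg p) * p`. -/
def S_QE : Prop :=
  ∀ (F : Type u) [Field F] [CharZero F] [IsAlgClosed F] (A : (ℕ → F) → Prop) (k : ℕ),
    Dfn A → Dfn fun e => ∃ x, A (Function.update e k x)

/-- **Package RE** (30 minutes; you may assume `S_SUB` and `S_DEC` as hypotheses). The certificates can be
checked by an algorithm.
Proof. A derivation code is `d = Nat.pair tag (Nat.pair (σ k θ and other data) (Nat.pair d₁ d₂))`, its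
conclusion is read off from the data. `valid d : Bool` by strong recursion on codes (`d₁, d₂ < d` if `tag > 0`):
`Computable.nat_strong_rec` (Mathlib.Computability.Partrec) with the step function
`l ↦ (rule conditions for d = l.length, with the computable decision `D` of `U`) && l.getD d₁ false && l.getD d₂ false`;
`chk d c = valid d && (conclusion d = c)`. -/
def S_RE : Prop :=
  ∀ (F : Type u) [Field F] [CharZero F] [IsAlgClosed F],
    ∃ chk : ℕ → ℕ × ℕ × ℕ → Bool, Computable₂ chk ∧
      ∀ σ k θ, W F σ k θ ↔ ∃ d, chk d (σ, k, θ) = true

/-- Universal truth is decidable (helper728 does this). -/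
def S_DEC : Prop :=
  ∀ (F : Type u) [Field F] [CharZero F] [IsAlgClosed F],
    ∃ D : ℕ → Bool, Computable D ∧ ∀ n, D n = true ↔ U F n

/-! ## Full first-order formulas -/

/-- First-order formulas in the language of rings `+, ·, 0, 1`; `all k p` is `∀ x_k, p`. -/
inductive FFull
  | eq (s t : FTerm)
  | not (p : FFull)
  | and (p q : FFull)
  | or (p q : FFull)
  | all (k : ℕ) (p : FFull)

/-- First-order formulas in the two-sorted language of Lie algebras over fields: `allF k p` is a quantifier
over the `k`-th variable of the field sort, `allL k p` one over the `k`-th variable of the algebra sort. -/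
inductive LFull
  | eqF (s t : FTerm)
  | eqL (s t : LTerm)
  | not (p : LFull)
  | and (p q : LFull)
  | or (p q : LFull)
  | allF (k : ℕ) (p : LFull)
  | allL (k : ℕ) (p : LFull)

/-- The variables in a term of the field sort. -/
def fvars : FTerm → Set ℕ
  | .var i => {i}
  | .zero => ∅
  | .one => ∅
  | .add s t => fvars s ∪ fvars t
  | .mul s t => fvars s ∪ fvars t

/-- The variables of the field sort in a term of the algebra sort. -/
def lfvars : LTerm → Set ℕ
  | .var _ => ∅
  | .zero => ∅
  | .add s t => lfvars s ∪ lfvars t
  | .lie s t => lfvars s ∪ lfvars t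
  | .smul c t => fvars c ∪ lfvars t

/-- The variables of the algebra sort in a term of the algebra sort. -/
def llvars : LTerm → Set ℕ
  | .var i => {i}
  | .zero => ∅
  | .add s t => llvars s ∪ llvars t
  | .lie s t => llvars s ∪ llvars t
  | .smul _ t => llvars t

/-- The free variables of a formula. -/
def FFull.free : FFull → Set ℕ
  | eq s t => fvars s ∪ fvars t
  | not p => p.free
  | and p q => p.free ∪ q.free
  | or p q => p.free ∪ q.free
  | all k p => p.free \ {k}

/-- The free variables of the field sort of a formula. -/
def LFull.freeF : LFull → Set ℕ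
  | eqF s t => fvars s ∪ fvars t
  | eqL s t => lfvars s ∪ lfvars t
  | not p => p.freeF
  | and p q => p.freeF ∪ q.freeF
  | or p q => p.freeF ∪ q.freeF
  | allF k p => p.freeF \ {k}
  | allL _ p => p.freeF

/-- The free variables of the algebra sort of a formula. -/
def LFull.freeL : LFull → Set ℕ
  | eqF _ _ => ∅
  | eqL s t => llvars s ∪ llvars t
  | not p => p.freeL
  | and p q => p.freeL ∪ q.freeL
  | or p q => p.freeL ∪ q.freeL
  | allF _ p => p.freeL
  | allL k p => p.freeL \ {k}

/-- Truth of a first-order formula in the field `F`, when the variables have the values `e`. -/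
def FFull.Holds {F : Type u} [Field F] : FFull → (ℕ → F) → Prop
  | eq s t, e => s.val e = t.val e
  | not p, e => ¬ p.Holds e
  | and p q, e => p.Holds e ∧ q.Holds e
  | or p q, e => p.Holds e ∨ q.Holds e
  | all k p, e => ∀ x : F, p.Holds (Function.update e k x)

/-- Truth of a first-order formula in the two-sorted structure `(L, F)`. -/
def LFull.Holds {F : Type u} {L : Type v} [Field F] [LieRing L] [LieAlgebra F L] :
    LFull → (ℕ → F) → (ℕ → L) → Prop
  | eqF s t, e, _ => s.val e = t.val e
  | eqL s t, e, g => s.val e g = t.val e g
  | not p, e, g => ¬ p.Holds e g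
  | and p q, e, g => p.Holds e g ∧ q.Holds e g
  | or p q, e, g => p.Holds e g ∨ q.Holds e g
  | allF k p, e, g => ∀ x : F, p.Holds (Function.update e k x) g
  | allL k p, e, g => ∀ z : L, p.Holds e (Function.update g k z)

/-- Gödel numbers of first-order formulas in the language of rings. -/
def FFull.code : FFull → ℕ
  | eq s t => Nat.pair 0 (Nat.pair s.code t.code)
  | not p => Nat.pair 1 p.code
  | and p q => Nat.pair 2 (Nat.pair p.code q.code)
  | or p q => Nat.pair 3 (Nat.pair p.code q.code)
  | all k p => Nat.pair 4 (Nat.pair k p.code)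

/-- Gödel numbers of first-order formulas in the two-sorted language. -/
def LFull.code : LFull → ℕ
  | eqF s t => Nat.pair 0 (Nat.pair s.code t.code)
  | eqL s t => Nat.pair 1 (Nat.pair s.code t.code)
  | not p => Nat.pair 2 p.code
  | and p q => Nat.pair 3 (Nat.pair p.code q.code)
  | or p q => Nat.pair 4 (Nat.pair p.code q.code)
  | allF k p => Nat.pair 5 (Nat.pair k p.code)
  | allL k p => Nat.pair 6 (Nat.pair k p.code)

/-- The elementary theory `Th(F)` of the field `F` is decidable: some algorithm, given the Gödel number of a
first-order sentence `φ` in the language of rings, decides whether `φ` is true in `F`. -/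
def FieldTheoryDecidable (F : Type u) [Field F] : Prop :=
  ∃ f : ℕ → Bool, Computable f ∧
    ∀ φ : FFull, φ.free = ∅ → (f φ.code = true ↔ φ.Holds (fun _ => (0 : F)))

/-- The elementary theory `Th(L)` of the Lie algebra `L` over `F`, as a two-sorted structure `(L, F)`, is
decidable: some algorithm, given the Gödel number of a first-order sentence `φ` in the two-sorted language,
decides whether `φ` is true in `(L, F)`. -/
def LieTheoryDecidable (F : Type u) (L : Type v) [Field F] [LieRing L] [LieAlgebra F L] : Prop :=
  ∃ f : ℕ → Bool, Computable f ∧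
    ∀ φ : LFull, φ.freeF = ∅ → φ.freeL = ∅ →
      (f φ.code = true ↔ φ.Holds (fun _ => (0 : F)) (fun _ => (0 : L)))

/-- **Package LIE** (30 minutes; definitions of this section and `FLDefs` only). If the elementary theory is
decidable then so is the universal theory.
Proof. For a quantifier-free `φ : LForm` let `φ' : LFull` be the same formula (same code). All variables in `φ` of
both sorts have indices `≤ φ.code` (as `i ≤ Nat.pair a i` etc.). Let `N = φ.code + 1` and let `ψ` be the sentence
`∀ x_0 … x_{N-1} (field) ∀ y_0 … y_{N-1} (algebra) φ'`; its code is `g φ.code` for the primitive recursive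
`g n = Nat.rec (Nat.rec n (fun i a => Nat.pair 6 (Nat.pair i a)) (n+1)) (fun i a => Nat.pair 5 (Nat.pair i a)) (n+1)`.
`ψ` has no free variables, and it is true iff `φ` holds for all `e`, `g` (truth depends only on the values of
the variables with index `< N`: congruence lemma by induction). So `f ∘ g` decides the universal theory. -/
def S_LIE : Prop :=
  ∀ (F : Type u) (L : Type v) [Field F] [LieRing L] [LieAlgebra F L],
    LieTheoryDecidable F L → LieUniversalTheoryDecidable F L

end Pool.Agent.U728.Lie
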